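import Pool.Agent.TH678.ETH.Up2
import Pool.Agent.TH678.ETH.Down2
import Pool.Agent.TH678.ETH.Down
import Pool.Agent.H620R2.Gauge2.V7
import Pool.Agent.H620R2.Gauge2.Trans

/-!
# How large is the set of the oracles relative to which the exponential time hypothesis fails?

`Q1` is equivalent to the question whether `ETH` holds if and only if `FPT ≠ W[1]`; in other words `M[1] = FPT` if and
only if `ETH` fails. Here the size of the set of the oracles relative to which exhaustive search can be improved is
determined, in terms of gauges (generalised Hausdorff measures) on the space of all oracles.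

A set of oracles is `f`-null if it is covered by cylinders with arbitrarily small sum of `2 ^ (f n - n)`, where `n` is
the length of the string which defines the cylinder (for `f = 0` these are the Lebesgue null sets).

1. Let `0 ≤ s < 1`. The set of the oracles relative to which all search problems with `|x|` nondeterministic bits are
decided at the exponent `s` (in time `2 ^ (δ |x|)` for all `δ > s`) is `f`-null if and only if
`f N ≤ (log N) ^ a` for infinitely many `N`, for some `a < 1 / s`. The same holds for all sets of oracles between the set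
of the oracles relative to which all of `PSPACE` is decided at the exponent `s`, and the set of the oracles relative to
which the search problems are decided with advice, nonuniformly for every `δ > s`.

2. For `s = 0` (the exponential time hypothesis) there is even nondeterminism on the upper side: for all sets of oracles
between the oracles relative to which `PSPACE` is in subexponential time, and the oracles relative to which the
complements of all search problems with `|x|` nondeterministic bits are in nondeterministic subexponential time with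
advice, the threshold is: `f N ≤ (log N) ^ C` for infinitely many `N`, for some `C`.
-/

set_option autoImplicit false

namespace Pool.Agent.Results.MP_ddf912_lc.ExponentialTimeGauge

open Filter Pool.Agent.NPC Pool.Agent.H620R2.Gauge Pool.Agent.TH678.ETH

/-- The oracles relative to which all problems in `PSPACE` are decided at the exponent `s`. -/
def SpaceAt (s : ℝ) : Set Oracle := {A | ∀ L, IsPSPACE A L → DecS s A L}

/-- The oracles relative to which all search problems with at most `|x|` nondeterministic bits are decided at the
exponent `s`. -/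
def SearchAt (s : ℝ) : Set Oracle := {A | ∀ L, IsN1 A L → DecS s A L}

/-- The oracles relative to which all search problems with at most `|x|` nondeterministic bits are decided at the rate
`2 ^ ⌊δ n⌋` with advice, for every `δ > s`. -/
def AdviceAt (s : ℝ) : Set Oracle := {A | ∀ L, IsN1 A L → ∀ δ : ℝ, s < δ → DecN δ A L}

theorem isNP_of_isN1 {A : Oracle} {L : Set (List Bool)} (h : IsN1 A L) : IsNP A L := by
  obtain ⟨V, hV, h⟩ := h
  exact ⟨V, Polynomial.X, hV, fun x => by rw [Polynomial.eval_X]; exact h x⟩

theorem hitLang_n1 (A : Oracle) : IsN1 A (hitLang A) := by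
  refine ⟨fun y => V7.H (y, (V7.Q y).map A), IsFP.tt V7.poly_Q V7.poly_H, fun x => ?_⟩
  have key : ∀ w : List Bool, V7.H (pairBits w x, (V7.Q (pairBits w x)).map A) = [true] ↔
      (w.length = x.length ∧ ∀ i < x.length, A (x ++ w ++ List.replicate i true) = true) := by
    intro w
    unfold V7.H V7.Q
    simp only [unpair_pairBits, List.cons.injEq, and_true, Bool.and_eq_true, decide_eq_true_eq,
      List.all_eq_true, List.mem_map, List.mem_range]
    constructor
    · rintro ⟨h1, h2⟩
      refine ⟨h1, fun i hi => ?_⟩
      apply h2
      refine ⟨_, ⟨i, hi, rfl⟩, ?_⟩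
      rw [min_eq_left hi.le]
    · rintro ⟨h1, h2⟩
      refine ⟨h1, ?_⟩
      rintro b ⟨_, ⟨i, hi, rfl⟩, rfl⟩
      rw [min_eq_left hi.le]
      exact h2 i hi
  constructor
  · rintro ⟨j, hj, h⟩
    refine ⟨bitsOf x.length j, ?_, ?_⟩
    · rw [length_bitsOf]
    · rw [key]
      exact ⟨length_bitsOf _ _, h⟩
  · rintro ⟨w, _, hw⟩
    rw [key] at hw
    obtain ⟨j, hj, h⟩ := exists_bitsOf w
    rw [hw.1] at hj h
    refine ⟨j, hj, fun i hi => ?_⟩
    unfold wit
    rw [h]
    exact hw.2 i hi

theorem space_sub (s : ℝ) : SpaceAt s ⊆ SearchAt s :=
  fun _ hA L hL => hA L (isNP_of_isN1 hL).isPSPACE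

theorem search_sub (s : ℝ) : SearchAt s ⊆ AdviceAt s := by
  intro A hA L hL δ hδ
  obtain ⟨M, hM⟩ := hA L hL
  obtain ⟨n₀, hn₀⟩ := hM δ hδ
  refine ⟨M, n₀, fun n hn => ⟨List.replicate (rate δ n) true, rate δ n, ?_, le_rfl, fun x hx => ?_⟩⟩
  · rw [List.length_replicate]
  · have := hn₀ x (by omega)
    rwa [hx] at this

/-- **The gauges of the exponential time hypothesis.** (1) For `0 ≤ s < 1`, a set of oracles between `SpaceAt s` and
`AdviceAt s`, for example `SearchAt s`, is null for the gauge `f` if and only if, for some `a` with `a * s < 1`, there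
are infinitely many `N` with `f N ≤ (log₂ N) ^ a`. (2) A set of oracles which contains all oracles relative to which
`PSPACE` is in subexponential time, and such that relative to all its members the complements of the search problems
with at most `|x|` nondeterministic bits are in nonuniform nondeterministic subexponential time, is null for the gauge
`f` if and only if, for some `C`, there are infinitely many `N` with `f N ≤ (log₂ N) ^ C`. -/
theorem result (f : ℕ → ℝ) :
    (∀ s : ℝ, 0 ≤ s → s < 1 →
      SpaceAt s ⊆ SearchAt s ∧ SearchAt s ⊆ AdviceAt s ∧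
      ∀ O : Set Oracle, SpaceAt s ⊆ O → O ⊆ AdviceAt s →
        (Null f O ↔ ∃ a : ℝ, a * s < 1 ∧ ∃ᶠ N : ℕ in atTop, f N ≤ (Real.logb 2 N) ^ a)) ∧
    ∀ O : Set Oracle, {A : Oracle | ∀ L, IsPSPACE A L → IsSubExp A L} ⊆ O →
      O ⊆ {A : Oracle | ∀ L, IsN1 A L → InNSub A Lᶜ} →
      (Null f O ↔ ∃ C : ℕ, ∃ᶠ N : ℕ in atTop, f N ≤ (Real.logb 2 N) ^ C) := by
  refine ⟨fun s hs hs1 => ⟨space_sub s, search_sub s, fun O h1 h2 => ⟨fun h => ?_, ?_⟩⟩,
    fun O h1 h2 => ⟨fun h => ?_, ?_⟩⟩
  · by_contra hcon
    push Not at hcon
    exact not_nullD2 hs (fun a ha => hcon a ha) O (fun A hA => h1 hA) h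
  · rintro ⟨a, ha, hf⟩
    exact null_of2 hs hs1 ha hf O fun A hA δ hδ => h2 hA _ (hitLang_n1 A) δ hδ
  · by_contra hcon
    push Not at hcon
    exact not_nullD (fun C => hcon C) O (fun A hA => h1 hA) h
  · rintro ⟨C, hf⟩
    exact null_of hf O fun A hA => h2 hA _ (hitLang_n1 A)

end Pool.Agent.Results.MP_ddf912_lc.ExponentialTimeGauge
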