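import Pool.Agent.Y581.WN.FinC
import Pool.Agent.Y581.WN.FinS

/-!
# Few changes of an oracle make the `W`-hierarchy strict

For a function `g`, an oracle `A` is close to the oracle `O` if, for all large `n`, they differ on at
most `g n` strings of length at most `n`. The starting result `NearEveryOracle` of this problem
determines the number of changes which is needed to separate `W[1]` from `M[1]` (or from `FPT`):
there is an oracle `O` such that `W[1] = M[1] = FPT` relative to all oracles which are close to `O`
for a polynomially bounded `g`, and superpolynomially many changes of any oracle are enough for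
`W[1] ≠ M[1]`. Here it is shown that the higher levels behave differently.

1. SuperPOLYLOGARITHMICALLY many changes of any oracle `O` are enough to separate, for all `t ≥ 1`,
the class `W[t+1]` from `W[t]`, and even from `A[t]` (nonuniform).

2. Superpolynomially many changes of any oracle are enough to separate at the same time all the
levels `W[t+1]` from `A[t]`, `t ≥ 0`, and `W[1]` from `M[1]` (in a wide nonuniform form).

So the first level is exceptional: relative to the oracle `O` of the starting result, by a
polynomially bounded number of changes the hierarchy becomes strict from the first level on, while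
`W[1] = M[1] = FPT` still holds; this is part 3.

Parts 1 and 2 are the theorems `strictkF` and `bothF` of the library
(`Pool.Agent.Y581.WN.FinS`), which were not used by any result so far; part 3 combines part 1 with
the starting result.
-/

set_option autoImplicit false

namespace Pool.Agent.Results.MP_ddf912_lc.HierarchyNearEveryOracle

open Pool.Agent.NPC Pool.Agent.H620R2.Gauge Pool.Agent.TH678.GC Pool.Agent.Y626.WG
open Pool.Agent.Y581.WN (InM1n SuperLog)
open Pool.Agent.Y626.WC (InFPT)
open Pool.Agent.W900.RB (Super)
open Pool.Agent.W900.CH (Close)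

/-- Relative to the oracle `A`, the class `W[t+1]` contains `W[t]`, `A[t]` (nonuniform) contains
`W[t]`, and the model-checking problem for `Σ_{t+1,1}`-sentences is in `W[t+1]` and not in `A[t]`.
In particular `W[t] ≠ W[t+1]`. -/
def StrictAt (t : ℕ) (A : Oracle) : Prop :=
  (∀ (α : Type) [TEnc α] (κ : α → ℕ) (P : α → Prop), InW t A κ P →
    InW (t + 1) A κ P ∧ InA t A κ P) ∧
  InW (t + 1) A (fun I : WInst (t + 1) => I.1.param) (fun I => I.1.Sat A) ∧
  ¬ InA t A (fun I : WInst (t + 1) => I.1.param) (fun I => I.1.Sat A)

/-- **Few changes of an oracle make the `W`-hierarchy strict.**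

1. If `g` is not bounded by a power of the logarithm, then every oracle `O` is close to an oracle
`A` (they differ on at most `g n` strings of length at most `n`, for all large `n`) relative to
which, for all `t ≥ 1`, `W[t+1]` is not contained in `A[t]`; in particular the `W`-hierarchy is
strict from `W[1]` on.

2. If `g` is not bounded by a polynomial, then every oracle `O` is close to an oracle `A` relative
to which `W[t+1]` is not contained in `A[t]` for all `t ≥ 0`, and `W[1]` is not contained in
`M[1]`.

3. There is an oracle `O` such that for every `g` which is not bounded by a power of the logarithm,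
but is bounded by a polynomial (not `Super g`), some oracle `A` close to `O` has both properties:
`W[1]` and `FPT` are the same class, and `W[t+1]` is not contained in `A[t]` for all `t ≥ 1`. -/
theorem result :
    (∀ g : ℕ → ℝ, SuperLog g → ∀ O : Oracle, ∃ A : Oracle, Close g O A ∧
      ∀ t : ℕ, 1 ≤ t → StrictAt t A) ∧
    (∀ g : ℕ → ℝ, Super g → ∀ O : Oracle, ∃ A : Oracle, Close g O A ∧
      (∀ t : ℕ, StrictAt t A) ∧
      ¬ InM1n A (fun I : WInst 1 => I.1.param) (fun I => I.1.Sat A)) ∧
    ∃ O : Oracle, ∀ g : ℕ → ℝ, SuperLog g → ¬ Super g → ∃ A : Oracle, Close g O A ∧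
      (∀ (α : Type) [TEnc α] (κ : α → ℕ) (P : α → Prop), InW 1 A κ P ↔ InFPT A κ P) ∧
      ∀ t : ℕ, 1 ≤ t → StrictAt t A := by
  refine ⟨fun g hg O => ?_, fun g hg O => ?_, ?_⟩
  · obtain ⟨A, h1, h2⟩ := Pool.Agent.Y581.WN.strictkF hg O
    exact ⟨A, h1, fun t ht => h2 t ht⟩
  · obtain ⟨A, h1, h2, h3⟩ := Pool.Agent.Y581.WN.bothF hg O
    exact ⟨A, h1, fun t => h2 t, h3⟩
  · obtain ⟨O, hO⟩ := Pool.Agent.Y581.WN.collapseF
    refine ⟨O, fun g hg hs => ?_⟩
    obtain ⟨A, h1, h2⟩ := Pool.Agent.Y581.WN.strictkF hg O
    exact ⟨A, h1, hO g hs A h1, fun t ht => h2 t ht⟩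

end Pool.Agent.Results.MP_ddf912_lc.HierarchyNearEveryOracle
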