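import Pool.Agent.X131.SY.Pair

set_option autoImplicit false

/-! Circuits with arbitrary gate functions for the clique problem, which are symmetric only under a
product of alternating groups of degree five. In this model the complete problems of `M[1]` (clique of
graphs with `O(k log n)` vertices) and of `W[1]` (clique of size `k`) both need size `n ^ Ω(k)`, and the
latter has no symmetric reduction of smaller size to any language. -/

namespace Pool.Agent.Results.MP_ddf912_lc.LocallySymmetricCircuits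

open Pool.Agent.W893.SY Pool.Agent.X131.SY

theorem result :
    (∃ K : ℕ, 0 < K ∧
      -- blocks of five vertices
      (∀ (n M s : ℕ) (e : Fin M × Fin 5 ↪ Fin n) (Un : Finset (Fin n)) (C : Net (Lit n) Bool s),
        (∀ z ∈ Un, z ∉ Set.range e) → BlockSym e C → DecidesBlocks e (M + Un.card) C →
        5 ^ M ≤ (s + 1) ^ K) ∧
      -- reductions of the clique problem for `k` parts of `5 ^ t` vertices to any language
      (∀ (k t s : ℕ) (C : Net (Sym2 (Vtx k t) × Bool) Bool s) (O : Type) (outs : O → Fin s)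
        (L : Set (O → Bool)), 2 ≤ k → WordSymOut C outs → ReducesTo C outs L →
        (5 ^ t) ^ k ≤ (s + 1) ^ K) ∧
      -- cliques of graphs with `5 k t` vertices, `t = log n`
      (∀ (c : ℕ) (f : ℕ → ℕ) (k : ℕ), K * c < k → ∃ T : ℕ, ∀ t : ℕ, T ≤ t →
        ∀ (s : ℕ) (e : Fin (k * t) × Fin 5 ↪ Fin (5 * (k * t)))
          (C : Net (Lit (5 * (k * t))) Bool s), BlockSym e C → DecidesClique (k * t) C →
          f k * (2 ^ t) ^ c < s) ∧
      -- cliques of size `k`
      (∀ (c : ℕ) (f : ℕ → ℕ) (k : ℕ), 2 ≤ k → K * c < k → ∃ T : ℕ, ∀ t : ℕ, T ≤ t →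
        ∀ (s : ℕ) (C : Net (Sym2 (Vtx k t) × Bool) Bool s) (O : Type) (outs : O → Fin s)
          (L : Set (O → Bool)), WordSymOut C outs → ReducesTo C outs L →
          f k * (k * 5 ^ t) ^ c < s)) ∧
    -- making circuits symmetric
    (∀ (n M s k : ℕ) (e : Fin M × Fin 5 ↪ Fin n) (C : Net (Lit n) Bool s), C.AndOr →
      DecidesClique k C → ∃ C' : Net (Lit n) Bool (60 ^ M * s + 1),
        C'.AndOr ∧ BlockSym e C' ∧ DecidesClique k C') ∧
    (∀ (k t s : ℕ) (C : Net (Sym2 (Vtx k t) × Bool) Bool s), C.AndOr → DecidesParts C →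
      ∃ C' : Net (Sym2 (Vtx k t) × Bool) Bool (60 ^ (k * t) * s + 1),
        C'.AndOr ∧ WordSym C' ∧ DecidesParts C') := by
  refine ⟨?_, fun n M s k e C hA hC => upper e C hA hC, fun k t s C hA hC => upperW C hA hC⟩
  obtain ⟨K, hK, h1, h2⟩ := final
  refine ⟨K, hK, h1, ?_, ?_, ?_⟩
  · intro k t s C O outs L hk hsym hC
    rw [← pow_mul, mul_comm t k]
    exact h2 k t s C O outs L hk hsym hC
  · intro c f k hk
    refine ⟨(f k + 1) ^ K, fun t ht s e C hsym hC => ?_⟩
    refine fpt (le_refl 2) hk ht ?_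
    have h := h1 (5 * (k * t)) (k * t) s e ∅ C (by simp) hsym (fun G _ => by
      rw [Finset.card_empty, add_zero]
      exact hC G)
    exact (Nat.pow_le_pow_left (by norm_num) _).trans h
  · intro c f k hk2 hk
    refine ⟨(f k * k ^ c + 1) ^ K, fun t ht s C O outs L hsym hC => ?_⟩
    rw [mul_pow, ← mul_assoc]
    exact fpt (by norm_num) hk ht (h2 k t s C O outs L hk2 hsym hC)

end Pool.Agent.Results.MP_ddf912_lc.LocallySymmetricCircuits
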