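import Pool.Agent.X15.GL.Hit
import Pool.Agent.TH678.ETH.Down

/-!
# How large is the set of the oracles relative to which `W[P] = FPT`?

`M[1] ⊆ W[1] ⊆ W[P]`, so `W[P] = FPT` implies `M[1] = W[1] = FPT`. Here the size of the set of the oracles with
`W[P] = FPT` is determined, in terms of gauges (generalised Hausdorff measures) on the space of all oracles.

A set of oracles is `f`-null if it is covered by cylinders with arbitrarily small sum of `2 ^ (f n - n)`, where `n` is
the length of the string which defines the cylinder (for `f = 0` these are the Lebesgue null sets).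

1. The set of the oracles with `W[P] = FPT` is `f`-null if and only if, for all `ε > 0`, `f N ≤ 2 ^ ((log N) ^ ε)` for
infinitely many `N`. The same holds for the set of the oracles relative to which the search problems with a parameter
(like the satisfiability of circuits with `n` variables) are decided in time `2 ^ (δ n)` times a polynomial, for some
`δ < 1`; and for all sets between `Collapsed` (`W[P] = FPT`, time `2 ^ (δ n)` times a polynomial for all `δ > 0`, but
`NP` is not in `coNP/poly`) and `Fast` (`W[P]` is in nonuniform `para-coNP`, or for some `δ < 1` the complements of the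
search problems with a parameter are in nonuniform nondeterministic time `2 ^ (δ n)` times a polynomial).

2. For some gauge, `Fast` is null, but the set of the oracles outside `Fast` relative to which `PSPACE` is in
subexponential time is not null. So in a much larger set than the one of 1 the exponential time hypothesis fails.
-/

set_option autoImplicit false

namespace Pool.Agent.Results.MP_ddf912_lc.WPGaugeLaw

open Filter Pool.Agent.NPC Pool.Agent.H620R2.Gauge Pool.Agent.H622R2 Pool.Agent.H622R2.Exp
  Pool.Agent.TH678.ETH Pool.Agent.TH678.SETH Pool.Agent.TH678.WP Pool.Agent.X15.GL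

/-- The oracles with `W[P] = FPT`. -/
def WPEqFPT : Set Oracle := {A | ∀ Q, InWP A Q ↔ InFPT A Q}

/-- The oracles relative to which, for some `δ < 1`, the search problems with a parameter are decided in time
`2 ^ (δ par y)` times a polynomial. -/
def FastSearch : Set Oracle := {A | ∃ δ : ℝ, δ < 1 ∧ ∀ L, IsParN A L → InDet δ A L}

/-- The oracles with `W[P] = FPT`, relative to which the search problems with a parameter are decided in time
`2 ^ (δ par y)` times a polynomial, for all `δ > 0`, while `NP` is not in `coNP/poly`. -/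
def Collapsed : Set Oracle :=
  {A | (∀ Q, InWP A Q ↔ InFPT A Q) ∧ (∀ δ : ℝ, 0 < δ → ∀ L, IsParN A L → InDet δ A L) ∧
    ∃ L, IsNP A L ∧ ¬ WithAdvice (IsNP A) Lᶜ}

/-- The oracles relative to which `W[P]` is in `para-coNP` with advice, or, for some `δ < 1`, the complements of the
search problems with a parameter are in nondeterministic time `2 ^ (δ par y)` times a polynomial, with advice. -/
def Fast : Set Oracle :=
  {A | (∀ Q, InWP A Q → InCoPN A Q) ∨ ∃ δ : ℝ, δ < 1 ∧ ∀ L, IsParN A L → InCoN δ A L}

/-- The oracles relative to which `PSPACE` is in subexponential time. -/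
def SubExpSpace : Set Oracle := {A | ∀ L, IsPSPACE A L → IsSubExp A L}

theorem inWP_of_inFPT {A : Oracle} {Q : Set (List Bool × ℕ)} (h : InFPT A Q) : InWP A Q := by
  obtain ⟨π, L, hπ, ⟨V, hV, hL⟩, h⟩ := h
  refine ⟨π, fun _ => 0, fun z => V (unpair z).2, hπ, Computable.const 0,
    hV.precomp (Poly.snd poly_unpair), fun x k => ?_⟩
  rw [h x k, hL]
  constructor
  · intro h1
    exact ⟨[], by simp, by beta_reduce; rw [unpair_pairBits]; exact h1⟩
  · rintro ⟨w, _, h1⟩
    beta_reduce at h1
    rw [unpair_pairBits] at h1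
    exact h1

/-- the algorithm with the opposite answer, which ignores the first component of its input -/
theorem exists_neg (M : Alg) : ∃ M' : Alg, ∀ (A : Oracle) (w y : List Bool) (n : ℕ),
    (M'.run A (pairBits w y) n [] = some [true] ↔ ∃ z, M.run A y n [] = some z ∧ z ≠ [true]) := by
  set g : List Bool → List Bool := fun s => M.D (pairBits (unpair (unpair s).1).2 (unpair s).2)
    with hg
  have pg : Poly g := (poly_of_polyTime M.poly).comp (poly_pairBits
    (Poly.snd (poly_unpair.comp (Poly.fst poly_unpair))) (Poly.snd poly_unpair))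
  have pD : Poly (fun s : List Bool => if (g s).head? = some false then g s else
      (if (g s).tail = [true] then [true] else [true, true])) := by
    refine Poly.ite (Poly.decide_eq (Poly.head? pg) (NPC.Poly.const _)) pg ?_
    exact Poly.ite (Poly.decide_eq (Poly.tail pg) (NPC.Poly.const _)) (NPC.Poly.const _)
      (NPC.Poly.const _)
  refine ⟨⟨_, polyTime_of_poly_list pD, M.p⟩, fun A w y n => ?_⟩
  have key : ∀ (n : ℕ) (a : List Bool),
      Alg.run ⟨_, polyTime_of_poly_list pD, M.p⟩ A (pairBits w y) n a =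
        (M.run A y n a).map (fun z => if z = [true] then [] else [true]) := by
    intro n
    induction n with
    | zero => intro a; simp [Alg.run]
    | succ n ih =>
      intro a
      have hgs : g (pairBits (pairBits w y) a) = M.D (pairBits y a) := by
        rw [hg]
        simp only [unpair_pairBits]
      rcases hq : M.D (pairBits y a) with _ | ⟨c, q⟩
      · simp [Alg.run, hgs, hq]
      · cases c with
        | true =>
          by_cases h1 : q = [true]
          · simp [Alg.run, hgs, hq, h1]
          · simp [Alg.run, hgs, hq, h1]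
        | false =>
          simp only [Alg.run, hgs, hq]
          simp only [List.head?_cons, if_true]
          exact ih _
  rw [key]
  rcases M.run A y n [] with _ | z
  · simp
  · by_cases hz : z = [true]
    · simp [hz]
    · simp [hz]

theorem inCoN_of_inDet {δ : ℝ} {A : Oracle} {L : Set (List Bool)} (h : InDet δ A L) :
    InCoN δ A L := by
  obtain ⟨M, c, h⟩ := h
  obtain ⟨M', hM'⟩ := exists_neg M
  refine ⟨M', c, fun n ℓ => ⟨List.replicate (cost δ c n ℓ) true, cost δ c n ℓ, ?_, le_rfl,
    fun y hn hℓ => ?_⟩⟩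
  · rw [List.length_replicate]
  · obtain ⟨z, h1, h2⟩ := h y
    rw [hn, hℓ] at h1
    rw [h2]
    constructor
    · intro h3
      exact ⟨[], Nat.zero_le _, (hM' _ _ _ _).2 ⟨z, h1, h3⟩⟩
    · rintro ⟨w, _, h3⟩
      obtain ⟨z', h4, h5⟩ := (hM' _ _ _ _).1 h3
      rw [h1, Option.some.injEq] at h4
      rw [h4]
      exact h5

theorem not_nullC {f : ℕ → ℝ} (hf : ¬ Cond f) (O : Set Oracle) (hO : Collapsed ⊆ O) :
    ¬ Null f O := by
  obtain ⟨g, hg⟩ := exists_alg
  obtain ⟨K, hK, hcount⟩ := exists_constS hf
  obtain ⟨S, Φ, hc⟩ := exists_coded g K hK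
  obtain ⟨c, hcc⟩ := hcount S hc.big
  refine not_null_of f _ (ae_np hc) Φ (Set.range (cI S K)) ?_ c (fun N => ?_) O fun B hB => ?_
  · intro B y hy
    apply hc.off
    intro p h
    exact hy ⟨p, h.symm⟩
  · exact hcc N
  · exact hO ⟨fun Q => ⟨fun hQ => wp_fpt hg hc B hQ, inWP_of_inFPT⟩,
      fun δ hδ L hL => inDet_coded hg hc B hδ hL, hB⟩

theorem null_fast {f : ℕ → ℝ} (hf : Cond f) : Null f Fast := by
  have h1 : Null f {A : Oracle | InCoPN A (hitW A)} := nullW hf _ fun A hA => hA
  have h2 : Null f {A : Oracle | ∃ δ : ℝ, δ < 1 ∧ InCoN δ A (hitP A)} :=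
    null_hitP hf _ fun A hA => hA
  refine (null_union h1 h2).mono ?_
  rintro A (hA | ⟨δ, hδ, hA⟩)
  · exact Or.inl (hA _ (inWP_hitW A))
  · exact Or.inr ⟨δ, hδ, hA _ (isParN_hitP A)⟩

/-- the gauge `2 ^ (log log N) ^ 2` -/
theorem exists_gauge : ∃ f : ℕ → ℝ, Cond f ∧
    ∀ C : ℕ, ∀ᶠ N : ℕ in atTop, (Real.logb 2 N) ^ C < f N := by
  have hy : Tendsto (fun N : ℕ => Real.logb 2 (N : ℝ)) atTop atTop :=
    (Real.tendsto_logb_atTop (b := 2) (by norm_num)).comp tendsto_natCast_atTop_atTop
  refine ⟨fun N => 2 ^ (Real.logb 2 (Real.logb 2 N)) ^ 2, fun ε hε => ?_, fun C => ?_⟩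
  · refine Eventually.frequently ?_
    have h1 : ∀ᶠ y : ℝ in atTop, ‖Real.log y‖ ≤ Real.log 2 * ‖y ^ (ε / 2)‖ :=
      (isLittleO_log_rpow_atTop (half_pos hε)).bound (Real.log_pos (by norm_num))
    filter_upwards [hy.eventually h1, hy.eventually_ge_atTop 1] with N h2 h3
    set y := Real.logb 2 (N : ℝ) with hyd
    have hl2 : 0 < Real.log 2 := Real.log_pos (by norm_num)
    have hly : 0 ≤ Real.log y := Real.log_nonneg h3
    rw [Real.norm_of_nonneg hly, Real.norm_of_nonneg (by positivity)] at h2
    have h4 : Real.logb 2 y ≤ y ^ (ε / 2) := by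
      unfold Real.logb
      rw [div_le_iff₀ hl2]
      linarith
    have h5 : 0 ≤ Real.logb 2 y := Real.logb_nonneg (by norm_num) h3
    apply Real.rpow_le_rpow_of_exponent_le (by norm_num)
    calc Real.logb 2 y ^ 2 ≤ (y ^ (ε / 2)) ^ 2 := pow_le_pow_left₀ h5 h4 2
      _ = y ^ ε := by
          rw [← Real.rpow_natCast, ← Real.rpow_mul (by linarith)]
          congr 1
          push_cast
          ring
  · have hz : Tendsto (fun N : ℕ => Real.logb 2 (Real.logb 2 (N : ℝ))) atTop atTop :=
      (Real.tendsto_logb_atTop (b := 2) (by norm_num)).comp hy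
    filter_upwards [hy.eventually_ge_atTop 1, hz.eventually_gt_atTop (max C 0)] with N h1 h2
    set y := Real.logb 2 (N : ℝ) with hyd
    set l := Real.logb 2 y with hl
    have hy0 : 0 < y := by linarith
    have h3 : y = 2 ^ l := (Real.rpow_logb (by norm_num) (by norm_num) hy0).symm
    have h4 : (C : ℝ) < l := (le_max_left _ _).trans_lt h2
    have h5 : (0 : ℝ) < l := (le_max_right _ _).trans_lt h2
    rw [show y ^ C = 2 ^ (l * C) by
      rw [Real.rpow_mul (by norm_num), ← h3, Real.rpow_natCast]]
    apply Real.rpow_lt_rpow_of_exponent_lt (by norm_num)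
    nlinarith

/-- **The gauges of `W[P] = FPT`.** (1) `Collapsed ⊆ WPEqFPT ⊆ Fast` and `Collapsed ⊆ FastSearch ⊆ Fast`, and every set
of oracles between `Collapsed` and `Fast` is null for the gauge `f` if and only if, for all `ε > 0`, there are infinitely
many `N` with `f N ≤ 2 ^ ((log₂ N) ^ ε)`. (2) For some gauge, `Fast` is null, but the set of the oracles which do not
belong to `Fast` and relative to which `PSPACE` is in subexponential time is not null. -/
theorem result :
    (∀ f : ℕ → ℝ, Collapsed ⊆ WPEqFPT ∧ WPEqFPT ⊆ Fast ∧ Collapsed ⊆ FastSearch ∧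
      FastSearch ⊆ Fast ∧ ∀ O : Set Oracle, Collapsed ⊆ O → O ⊆ Fast →
        (Null f O ↔
          ∀ ε : ℝ, 0 < ε → ∃ᶠ N : ℕ in atTop, f N ≤ 2 ^ (Real.logb 2 N) ^ ε)) ∧
    ∃ f : ℕ → ℝ, Null f Fast ∧ ¬ Null f (SubExpSpace \ Fast) := by
  refine ⟨fun f => ⟨fun A hA => hA.1, fun A hA => Or.inl fun Q hQ =>
    inCoPN_of_inFPT ((hA Q).1 hQ), fun A hA => ⟨1 / 2, by norm_num, hA.2.1 _ (by norm_num)⟩,
    fun A ⟨δ, hδ, hA⟩ => Or.inr ⟨δ, hδ, fun L hL => inCoN_of_inDet (hA L hL)⟩,
    fun O h1 h2 => ⟨fun h => ?_, fun h => (null_fast h).mono h2⟩⟩, ?_⟩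
  · by_contra hcon
    exact not_nullC hcon O h1 h
  · obtain ⟨f, hf, hf'⟩ := exists_gauge
    refine ⟨f, null_fast hf, fun h => ?_⟩
    have h1 : Null f SubExpSpace := (null_union h (null_fast hf)).mono fun A hA => by
      by_cases h2 : A ∈ Fast
      · exact Or.inr h2
      · exact Or.inl ⟨hA, h2⟩
    exact not_nullD hf' _ (fun A hA => hA) h1

end Pool.Agent.Results.MP_ddf912_lc.WPGaugeLaw
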